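import Pool.Agent.Lib_helper19.Src.Assembly

set_option autoImplicit false

/-! # MP_80a94d_pr: for every tree with sufficiently many vertices the number of sources of a random
orientation has a unimodal distribution -/

namespace Pool.Agent.Results.MP_80a94d_pr.LargeTrees

open Pool.Agent.Lib_helper19.Src

theorem result : ∃ n₀ : ℕ, ∀ (V : Type) [Fintype V] (G : SimpleGraph V), G.IsTree →
    n₀ ≤ Fintype.card V → Unimodal (Fintype.card V) (prob G) := by
  obtain ⟨n₀, h⟩ := final
  refine ⟨n₀, fun V _ G hG hn => ?_⟩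
  obtain ⟨p, hp, hcnt⟩ := transfer G hG
  obtain ⟨m, h1, h2⟩ := h (Fintype.card V) hn p hp
  have hpos : (0 : ℝ) ≤ (1 / 2) ^ G.edgeSet.ncard := by positivity
  refine ⟨min m (Fintype.card V), min_le_right _ _, fun i hi => ?_, fun i hi hin => ?_⟩
  · unfold prob
    rw [hcnt, hcnt]
    refine mul_le_mul_of_nonneg_right ?_ hpos
    exact_mod_cast h1 i (lt_of_lt_of_le hi (min_le_left _ _))
  · unfold prob
    rw [hcnt, hcnt]
    refine mul_le_mul_of_nonneg_right ?_ hpos
    have hm : m ≤ i := by
      rcases min_le_iff.mp hi with h | h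
      · exact h
      · omega
    exact_mod_cast h2 i hm

end Pool.Agent.Results.MP_80a94d_pr.LargeTrees
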